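import Pool.Agent.Helper11_PGL.StmtT

/-! # Squad PGL, module GREEDY (helper59) -/

open MvPolynomial

universe u

namespace PGL.H59

section
variable {k : Type u} [Field k] {σ τ : Type}

theorem coeff_coeff_sum (F : MvPolynomial (σ ⊕ τ) k) (d : σ →₀ ℕ) (a : τ →₀ ℕ) :
    coeff a (coeff d (sumAlgEquiv k σ τ F)) = coeff (Finsupp.sumElim d a) F := by
  classical
  induction F using MvPolynomial.induction_on' with
  | monomial u r =>
    have : sumAlgEquiv k σ τ (monomial u r) =
        monomial (Finsupp.sumFinsuppAddEquivProdFinsupp u).1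
          (monomial (Finsupp.sumFinsuppAddEquivProdFinsupp u).2 r) := by
      ext m m'
      simp [sumAlgEquiv, monomial, coeff]
    rw [this, coeff_monomial, coeff_monomial]
    have key : u = Finsupp.sumElim d a ↔ (Finsupp.sumFinsuppAddEquivProdFinsupp u).1 = d ∧
        (Finsupp.sumFinsuppAddEquivProdFinsupp u).2 = a := by
      constructor
      · rintro rfl
        constructor <;> ext i <;> simp
      · rintro ⟨h1, h2⟩
        ext (i | i)
        · rw [← h1]; simp
        · rw [← h2]; simp
    by_cases h1 : (Finsupp.sumFinsuppAddEquivProdFinsupp u).1 = d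
    · rw [if_pos h1, coeff_monomial]
      by_cases h2 : (Finsupp.sumFinsuppAddEquivProdFinsupp u).2 = a
      · rw [if_pos h2, if_pos (key.mpr ⟨h1, h2⟩)]
      · rw [if_neg h2, if_neg fun h => h2 (key.mp h).2]
    · rw [if_neg h1, coeff_zero, if_neg fun h => h1 (key.mp h).1]
  | add p q hp hq => rw [map_add, coeff_add, coeff_add, coeff_add, hp, hq]

theorem eval_sum (F : MvPolynomial (σ ⊕ τ) k) (p : σ → k) (q : τ → k) :
    eval p (map (eval q) (sumAlgEquiv k σ τ F)) = eval (Sum.elim p q) F := by
  have : ((eval p).comp ((map (eval q)).comp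
      (sumAlgEquiv k σ τ : MvPolynomial (σ ⊕ τ) k →+* _))) = eval (Sum.elim p q) := by
    apply ringHom_ext
    · intro r
      simp
    · rintro (i | i) <;> simp
  exact RingHom.congr_fun this F

theorem sum_sumElim (d : σ →₀ ℕ) (a : τ →₀ ℕ) :
    ((Finsupp.sumElim d a).sum fun _ e => e) = (d.sum fun _ e => e) + a.sum fun _ e => e := by
  classical
  rw [Finsupp.sumElim_eq_add, Finsupp.sum_add_index' (fun _ => rfl) (fun _ _ _ => rfl),
    Finsupp.sum_mapDomain_index (fun _ => rfl) (fun _ _ _ => rfl),
    Finsupp.sum_mapDomain_index (fun _ => rfl) (fun _ _ _ => rfl)]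

end

/-- the splitting of the first block -/
def spl (M v : ℕ) : Fin (M + 1) × Fin v ≃ (Fin M × Fin v) ⊕ Fin v where
  toFun ij := Fin.cases (motive := fun _ => (Fin M × Fin v) ⊕ Fin v) (Sum.inr ij.2)
    (fun i => Sum.inl (i, ij.2)) ij.1
  invFun := Sum.elim (fun ij => (ij.1.succ, ij.2)) fun j => (0, j)
  left_inv := by
    rintro ⟨i, j⟩
    refine Fin.cases ?_ (fun i => ?_) i <;> simp
  right_inv := by
    rintro (⟨i, j⟩ | j) <;> simp

theorem greedy_aux {k : Type u} [Field k] {β : Type u} [DecidableEq β] [DecidableEq k] (v e : ℕ)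
    (π : β → Fin v → k) : ∀ (M : ℕ) (F : MvPolynomial (Fin M × Fin v) k) (S : Finset β), F ≠ 0 →
    F.totalDegree ≤ e →
    (∃ q : Fin M → β, Function.Injective q ∧ (∀ i, q i ∈ S) ∧
      MvPolynomial.eval (fun ij : Fin M × Fin v => π (q ij.1) ij.2) F ≠ 0) ∨
    ∃ c : MvPolynomial (Fin v) k, c ≠ 0 ∧ c.totalDegree ≤ e ∧
      (S.filter (fun b => MvPolynomial.eval (π b) c ≠ 0)).card ≤ M := by
  intro M
  induction M with
  | zero =>
    intro F S hF _
    left
    refine ⟨fun i => i.elim0, fun i => i.elim0, fun i => i.elim0, ?_⟩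
    rw [eq_C_of_isEmpty F, eval_C]
    intro h
    apply hF
    rw [eq_C_of_isEmpty F, h, C_0]
  | succ M ih =>
    intro F S hF he
    set F' := rename (spl M v) F with hF'
    have hF'0 : F' ≠ 0 := fun h => hF (rename_injective _ (spl M v).injective (by
      rw [← hF', h, map_zero]))
    have hdeg : F'.totalDegree ≤ e := (totalDegree_rename_le _ _).trans he
    set G := sumAlgEquiv k (Fin M × Fin v) (Fin v) F' with hG
    have hG0 : G ≠ 0 := fun h => hF'0 (by
      rw [hG] at h
      exact (map_eq_zero_iff _ (AlgEquiv.injective _)).mp h)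
    obtain ⟨d, hd⟩ := ne_zero_iff.mp hG0
    by_cases h : ∃ b ∈ S, eval (π b) (coeff d G) ≠ 0
    · obtain ⟨b, hbS, hb⟩ := h
      have h1 : map (eval (π b)) G ≠ 0 := by
        intro h
        apply hb
        rw [← coeff_map, h, coeff_zero]
      have h2 : (map (eval (π b)) G).totalDegree ≤ e := by
        refine Finset.sup_le fun d' hd' => ?_
        have h3 : coeff d' G ≠ 0 := by
          intro h
          rw [mem_support_iff, coeff_map, h, map_zero] at hd'
          exact hd' rfl
        obtain ⟨a, ha⟩ := ne_zero_iff.mp h3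
        rw [hG, coeff_coeff_sum] at ha
        have h4 := (le_totalDegree (mem_support_iff.mpr ha)).trans hdeg
        rw [sum_sumElim] at h4
        omega
      rcases ih (map (eval (π b)) G) (S.erase b) h1 h2 with ⟨q, hq1, hq2, hq3⟩ | ⟨c, hc1, hc2, hc3⟩
      · left
        refine ⟨Fin.cons b q, ?_, ?_, ?_⟩
        · rw [Fin.cons_injective_iff]
          refine ⟨?_, hq1⟩
          rintro ⟨i, hi⟩
          have := hq2 i
          rw [hi] at this
          exact Finset.notMem_erase _ _ this
        · intro i
          refine Fin.cases ?_ (fun i => ?_) i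
          · exact hbS
          · rw [Fin.cons_succ]
            exact Finset.mem_of_mem_erase (hq2 i)
        · rw [hG, eval_sum, hF', eval_rename] at hq3
          have e1 : (Sum.elim (fun ij : Fin M × Fin v => π (q ij.1) ij.2) (π b) ∘ spl M v) =
              fun ij : Fin (M + 1) × Fin v => π (Fin.cons (α := fun _ => β) b q ij.1) ij.2 := by
            refine _root_.funext fun ij => ?_
            obtain ⟨i, j⟩ := ij
            refine Fin.cases ?_ (fun i => ?_) i
            · rfl
            · rfl
          rw [e1] at hq3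
          exact hq3
      · right
        refine ⟨c, hc1, hc2, ?_⟩
        have h5 : S.filter (fun b => eval (π b) c ≠ 0) ⊆
            insert b ((S.erase b).filter (fun b => eval (π b) c ≠ 0)) := by
          intro b' hb'
          rw [Finset.mem_filter] at hb'
          rw [Finset.mem_insert, Finset.mem_filter, Finset.mem_erase]
          by_cases h6 : b' = b
          · exact Or.inl h6
          · exact Or.inr ⟨⟨h6, hb'.1⟩, hb'.2⟩
        exact (Finset.card_le_card h5).trans ((Finset.card_insert_le _ _).trans (by omega))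
    · right
      refine ⟨coeff d G, hd, ?_, ?_⟩
      · refine Finset.sup_le fun a ha => ?_
        rw [mem_support_iff, hG, coeff_coeff_sum] at ha
        have h4 := (le_totalDegree (mem_support_iff.mpr ha)).trans hdeg
        rw [sum_sumElim] at h4
        omega
      · rw [Finset.filter_eq_empty_iff.mpr, Finset.card_empty]
        · omega
        · intro b hb hb'
          exact h ⟨b, hb, hb'⟩

theorem greedy : GreedyStmt.{u} := fun _ _ _ _ _ M v e F S π hF he =>
  greedy_aux v e π M F S hF he

end PGL.H59
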