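import Pool.Agent.Helper11_PGL.StmtT

/-! # Squad PGL, module GRID (helper59) -/

open MvPolynomial

namespace PGL.H59

theorem finite_JJ (m s : ℕ) : Finite (JJ m s) := by
  have h : Set.Finite {a : Fin (m + 1) →₀ ℕ | a.degree ≤ s} := Finsupp.finite_of_degree_le s
  have : Finite {a : Fin (m + 1) →₀ ℕ // a.degree ≤ s} := h
  refine Finite.of_injective (β := {a : Fin (m + 1) →₀ ℕ // a.degree ≤ s})
    (fun a : JJ m s => ⟨a.1, a.2.1⟩) ?_
  intro a b hab
  exact Subtype.ext (Subtype.mk.inj hab)

/-- evaluation at a point -/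
noncomputable def evf (m s : ℕ) (y : Fin (m + 1) → ℤ) : (JJ m s →₀ ℚ) →ₗ[ℚ] ℚ :=
  Finsupp.lsum ℚ fun a => LinearMap.mulRight ℚ (a.1.prod fun l e => (y l : ℚ) ^ e)

theorem evf_apply (m s : ℕ) (y : Fin (m + 1) → ℤ) (c : JJ m s →₀ ℚ) :
    evf m s y c = c.sum fun a t => t * a.1.prod fun l e => (y l : ℚ) ^ e := by
  rw [evf, Finsupp.lsum_apply]
  rfl

/-- the points on the grid lines -/
def Gr (m s : ℕ) : Set (Fin (m + 1) → ℤ) :=
  {y | ∀ l : Fin m, ∃ a : ℕ, 1 ≤ a ∧ a ≤ s ∧ y l.succ = a}

theorem JJ_lt {m s : ℕ} (a : JJ m s) (l : Fin m) : a.1 l.succ < s := by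
  obtain ⟨a, h1, h2⟩ := a
  by_contra h
  push Not at h
  apply h2 l
  have h3 : a.degree ≤ s := h1
  have h4 : ∀ j, j ≠ l.succ → a j = 0 := by
    intro j hj
    have h5 : a.degree = ∑ i, a i := Finsupp.degree_eq_sum a
    rw [h5] at h3
    have h6 : a l.succ + a j ≤ ∑ i, a i := by
      have h7 := Finset.sum_le_sum_of_subset (f := fun i => a i)
        (Finset.subset_univ ({l.succ, j} : Finset (Fin (m + 1))))
      rw [Finset.sum_pair (Ne.symm hj)] at h7
      exact h7
    simp only at h
    omega
  have h5 : a l.succ ≤ s := by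
    have := Finsupp.le_degree l.succ a
    omega
  ext j
  by_cases hj : j = l.succ
  · subst hj
    rw [Finsupp.single_eq_same]
    exact le_antisymm h5 h
  · rw [h4 j hj, Finsupp.single_eq_of_ne hj]

theorem ev_zero {m s : ℕ} (hs : 1 ≤ s) (c : JJ m s →₀ ℚ) (h : ∀ y ∈ Gr m s, evf m s y c = 0) :
    c = 0 := by
  classical
  set p : MvPolynomial (Fin (m + 1)) ℚ := c.sum fun a t => monomial a.1 t with hp
  have hcoeff : ∀ a : JJ m s, coeff a.1 p = c a := by
    intro a
    rw [hp, Finsupp.sum, coeff_sum]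
    simp only [coeff_monomial]
    by_cases ha : a ∈ c.support
    · rw [Finset.sum_eq_single a]
      · rw [if_pos rfl]
      · intro b _ hb
        rw [if_neg fun h => hb (Subtype.ext h)]
      · intro h; exact absurd ha h
    · rw [Finsupp.notMem_support_iff.mp ha]
      refine Finset.sum_eq_zero fun b hb => ?_
      rw [if_neg]
      intro h
      exact ha (by rwa [← (Subtype.ext h : b = a)])
  have hsupp : ∀ a ∈ p.support, ∃ b : JJ m s, b.1 = a := by
    intro a ha
    rw [mem_support_iff, hp, Finsupp.sum, coeff_sum] at ha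
    obtain ⟨b, _, hb⟩ := Finset.exists_ne_zero_of_sum_ne_zero ha
    rw [coeff_monomial] at hb
    refine ⟨b, ?_⟩
    by_contra hne
    rw [if_neg hne] at hb
    exact hb rfl
  have hev : ∀ y : Fin (m + 1) → ℤ, eval (fun l => (y l : ℚ)) p = evf m s y c := by
    intro y
    rw [evf_apply, hp, Finsupp.sum, map_sum]
    refine Finset.sum_congr rfl fun a _ => ?_
    rw [eval_monomial]
  have h0 : p = 0 := by
    refine eq_zero_of_eval_zero_at_prod_finset p
      (Fin.cases ((Finset.range (s + 1)).image fun i : ℕ => (i : ℚ))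
        (fun _ => (Finset.Icc 1 s).image fun i : ℕ => (i : ℚ))) ?_ ?_
    · intro i
      refine Fin.cases ?_ (fun l => ?_) i
      · show _ < ((Finset.range (s + 1)).image fun i : ℕ => (i : ℚ)).card
        rw [Finset.card_image_of_injective _ Nat.cast_injective, Finset.card_range,
          Nat.lt_succ_iff, degreeOf_le_iff]
        intro a ha
        obtain ⟨b, rfl⟩ := hsupp a ha
        have h1 : b.1.degree ≤ s := b.2.1
        have := Finsupp.le_degree 0 b.1
        omega
      · show _ < ((Finset.Icc 1 s).image fun i : ℕ => (i : ℚ)).card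
        rw [Finset.card_image_of_injective _ Nat.cast_injective, Nat.card_Icc]
        have : degreeOf l.succ p ≤ s - 1 := by
          rw [degreeOf_le_iff]
          intro a ha
          obtain ⟨b, rfl⟩ := hsupp a ha
          have := JJ_lt b l
          omega
        omega
    · intro x hx
      have h1 : ∃ y : Fin (m + 1) → ℤ, y ∈ Gr m s ∧ ∀ l, x l = y l := by
        have h2 : ∀ l : Fin (m + 1), ∃ n : ℕ, x l = n ∧ (l ≠ 0 → 1 ≤ n ∧ n ≤ s) := by
          intro l
          refine Fin.cases ?_ (fun l => ?_) l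
          · have h3 := hx 0
            simp only [Fin.cases_zero, Finset.mem_image, Finset.mem_range] at h3
            obtain ⟨n, _, hn⟩ := h3
            exact ⟨n, hn.symm, fun h => absurd rfl h⟩
          · have h3 := hx l.succ
            simp only [Fin.cases_succ, Finset.mem_image, Finset.mem_Icc] at h3
            obtain ⟨n, hn', hn⟩ := h3
            exact ⟨n, hn.symm, fun _ => hn'⟩
        choose n hn1 hn2 using h2
        refine ⟨fun l => (n l : ℤ), fun l => ⟨n l.succ, (hn2 _ (Fin.succ_ne_zero l)).1,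
          (hn2 _ (Fin.succ_ne_zero l)).2, rfl⟩, fun l => ?_⟩
        rw [hn1 l]
        push_cast
        rfl
      obtain ⟨y, hy, hxy⟩ := h1
      have h2 : x = fun l => (y l : ℚ) := _root_.funext hxy
      rw [h2, hev, h y hy]
  ext a
  rw [← hcoeff, h0, coeff_zero, Finsupp.coe_zero, Pi.zero_apply]

theorem grid : GridStmt := by
  classical
  intro m s hs
  have := finite_JJ m s
  have := Fintype.ofFinite (JJ m s)
  set V := JJ m s →₀ ℚ with hV
  let fam : Gr m s → Module.Dual ℚ V := fun y => evf m s y.1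
  have hspan : Submodule.span ℚ (Set.range fam) = ⊤ := by
    have h1 : (Submodule.span ℚ (Set.range fam)).dualCoannihilator = ⊥ := by
      rw [eq_bot_iff]
      intro c hc
      rw [Submodule.mem_dualCoannihilator] at hc
      rw [Submodule.mem_bot]
      exact ev_zero hs c fun y hy => hc (fam ⟨y, hy⟩) (Submodule.subset_span ⟨⟨y, hy⟩, rfl⟩)
    have h2 := Subspace.dualCoannihilator_dualAnnihilator_eq
      (W := Submodule.span ℚ (Set.range fam))
    rw [h1, Submodule.dualAnnihilator_bot] at h2
    exact h2.symm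
  obtain ⟨t, ht1, ht2, ht3⟩ := exists_linearIndependent ℚ (Set.range fam)
  have b := Module.Basis.mk ht3 (by rw [Subtype.range_coe, ht2, hspan])
  have b2 := (Finsupp.basisSingleOne (R := ℚ) (ι := JJ m s)).dualBasis
  have e : JJ m s ≃ t := b2.indexEquiv b
  have hy : ∀ i : JJ m s, ∃ y : Gr m s, fam y = (e i : Module.Dual ℚ V) := fun i =>
    ht1 (e i).2
  choose y hy using hy
  refine ⟨fun i => (y i).1, fun i l => (y i).2 l, fun c hc => ?_⟩
  have h1 : ∀ f ∈ t, f c = 0 := by
    intro f hf
    obtain ⟨i, hi⟩ := e.surjective ⟨f, hf⟩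
    have h2 := hc i
    have h3 : fam (y i) c = 0 := by
      show evf m s (y i).1 c = 0
      rw [evf_apply]
      exact h2
    rw [hy, hi] at h3
    exact h3
  have h2 : ∀ f ∈ Submodule.span ℚ t, f c = 0 := by
    intro f hf
    induction hf using Submodule.span_induction with
    | mem f hf => exact h1 f hf
    | zero => rfl
    | add f g _ _ h3 h4 => rw [LinearMap.add_apply, h3, h4, add_zero]
    | smul r f _ h3 => rw [LinearMap.smul_apply, h3, smul_zero]
  rw [ht2, hspan] at h2
  exact (Module.forall_dual_apply_eq_zero_iff ℚ c).mp fun f => h2 f trivial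

end PGL.H59
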